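import Pool.Agent.R882.HL

/-!
# The generalized Bloch conjecture for zero-cycles on the images of smooth complete intersections
in products of projective lines

Let `V 0 ⇢ V 1 ⇢ ... ⇢ V k` be a tower (`LinesTower`, `Pool/Agent/R882/HL.lean`) of varieties of
dimension `n ≥ 1`, where `V k` is any unirational variety, each `V i`, `i < k`, is a smooth complete
intersection, of any codimension `q`, of hypersurfaces of multidegrees `(d_{l,a})`, `l = 1, ..., q`,
in the product of the projective lines with the coordinates `x_a`, `a = 1, ..., n + q`, with
`Σ_l d_{l,a} = m_a + 2`, so that the canonical divisor of `V i` is `O(m_a)`, `m_a ≥ 0`, and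
`V (i + 1)` is birational to the image of `V i` under the projection which forgets one coordinate
`x_{a0}`. (If `V 0` is a smooth hypersurface then `k = 1` and `V 1` is a product of `n` projective
lines. A triangular system `F 1 (t, y 1) = 0`, ..., `F k (t, y 1, ..., y k) = 0`, where
`t = (t 1, ..., t n)`, gives a tower if the first `i` equations define a smooth complete intersection
for all `i`.) It is assumed that `s i ≤ m_a + 1` for all `a ≠ a0`, for the numbers `m_a` of `V i`,
where `s i = s / (b 0 ⋯ b (i - 1))` and `b i` is the degree of `V i` over `V (i + 1)`; nothing is
assumed about `m_{a0}`.

Let `V 0 ⇢ X` be any dominant rational map of degree `r`, where the above holds for `s = r`;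
nothing is assumed about the map (it need not be a quotient by a group and has no relation to the
tower) or about `X`. The theorem: if the geometric genus `p_g(Y) = h^{n,0}(Y)` of the smooth
projective models `Y` of `X` is zero then `Y` is unirational. In particular all zero-cycles of degree
zero on `Y` are rationally equivalent to zero (this standard consequence is not formalised here). So
the generalized Bloch conjecture holds for all these `Y` for `c = 1`: if `Y` has Hodge coniveau
`≥ 1`, that is, `h^{p,0}(Y) = 0` for all `p ≥ 1`, or only for `p = n`, then `A_0^{hom}(Y) = 0`.

Proof: if `X` has geometric genus zero and `V i ⇢ X` is a rational map then it factors through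
`V i ⇢ V (i + 1)`, because the traces to `X` of the forms `A x_{a0} ^ j Res`, where `Res` is the
residue form on `V i` and `A` is a polynomial in the other coordinates, are
zero. So
`X` is dominated by `V k`, and it is unirational.

`K` and `L` are the function fields of `V 0` and `X`. `GenusZero L n`: the only canonical form which is
regular at all prime divisors of all models is `0` (`Pool/Agent/R882/HT.lean`). `IsUnirational ℂ L n`:
`L` embeds in the field of rational functions in `n` variables (`Pool/Agent/W619/TW`).
-/

set_option autoImplicit false
set_option linter.overlappingInstances false

open FF Module Pool.Agent.W602.GT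
open Pool.Agent.W619.TW (IsUnirational)
open Pool.Agent.R882.HT (GenusZero)
open Pool.Agent.R882.HL (LinesTower)

namespace Pool.Agent.Results.MP_13bc1c_ag.ImagesGenusZero

/-- **Images of geometric genus zero.** Let `K` be the function field of the first variety `V` of a tower of
smooth complete intersections of dimension `n ≥ 1` in products of projective lines over a
unirational variety, of height `r`, and let `V ⇢ X` be a dominant rational map of degree `r`, `L`
the function field of `X`. If `p_g(X) = 0` then `X` is unirational. -/
theorem result {n : ℕ} (hn : 1 ≤ n) {K : Type} [Field K] [Algebra ℂ K]
    (hK : Algebra.trdeg ℂ K = (n : ℕ))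
    (L : Type) [Field L] [Algebra ℂ L] [Algebra L K] [IsScalarTower ℂ L K]
    [FiniteDimensional L K]
    (h : LinesTower n (fun E _ _ => IsUnirational ℂ E n) K (Module.finrank L K)) :
    GenusZero L n → IsUnirational ℂ L n :=
  (Pool.Agent.R882.HL.tower_aux hn (Pool.Agent.R882.HT.descends_unirational n) h hK L).1 rfl

end Pool.Agent.Results.MP_13bc1c_ag.ImagesGenusZero
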