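import Pool.Agent.R905.BQ.MainG

/-!
# The generalized Bloch conjecture and supports of Chow groups of quotients of powers

Let `X` be a variety of dimension `d + 1` of a class `𝒱` of smooth projective varieties over a field
which is closed under products, with Chow groups `C` (rational coefficients) and a Weil cohomology
theory `W`, and suppose that the cohomology of `X` is spanned by classes of algebraic cycles. Let `G`
be a finite group of automorphisms of `X` and `m = n + 2 ≥ 2`. The group `S_m × G` acts on the power
`X^m`, where `G` acts diagonally. Suppose that homologically trivial divisors and homologically
trivial `0`-cycles are smash-nilpotent, which is the case over the complex numbers by the theorem of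
Voevodsky and Voisin.

Theorem. The cycle class map is injective on the Chow groups of `X × X` if and only if the sum of the
graphs of the elements of `S_m × G` on `X^m` is a linear combination of correspondences of degree
zero which factor through varieties of dimension at most `d + 1` and of correspondences which factor
with a shift of codimensions by `d`.

Over the complex numbers the first condition means that all homologically trivial cycles on `X`, of
all dimensions, vanish rationally, as predicted by the generalized Bloch conjecture, and the second
condition follows if for all `i < d` the group `CH_i` of the quotient `X^m / (S_m × G)` is supported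
on a closed subset of dimension at most `d + 1 = dim X` (decomposition of the diagonal of Bloch,
Srinivas, Paranjape and Laterveer). So the generalized Bloch conjecture for `X`, for cycles of all
dimensions, is equivalent to this condition on the supports of the Chow groups of one quotient
`X^m / (S_m × G)`, `m ≥ 2`.
-/

open Pool.Agent.H914 Pool.Agent.R903 Pool.Agent.R905.BQ

universe u v w

namespace Pool.Agent.Results.MP_13bc1c_ag.SupportsOnPowers

theorem result {k : Type u} [Field k] {𝒱 : VarClass k} {C : ChowTheory.{u, v} 𝒱}
    (W : WeilTheory.{u, v, w} C) (hP : C.Polarized) (hW : DivisorsPointsNilpotent W) (X : 𝒱.Obj)
    (hX : W.AlgebraicCohomology X) {d : ℕ} (hd : X.dim = d + 1)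
    (G : Subgroup (CategoryTheory.Aut X)) [Fintype G] (n : ℕ) :
    ClInjectiveAll W (X.prod X) ↔ SupportedInDim C d (groupSum C G (n + 1)) :=
  iff_supportedInDim hX hP hW hd G n

end Pool.Agent.Results.MP_13bc1c_ag.SupportsOnPowers
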